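import Mathlib
import Pool.Agent.Y666.SP.Stm2
import Pool.Agent.H643R2.ChainDec

/-!
# PROJECT SP, part 2: Dilworth's theorem, large subsets of chains, KINC
-/

set_option autoImplicit false

open Cardinal

namespace Pool.Agent.Y625.SPO

open Pool.Agent.Y666.SP

theorem cd_mono {α : Type} {A B : Set α} (h : A ⊆ B) : cd A ≤ cd B := Cardinal.mk_le_mk_of_subset h

theorem cd_cover {α : Type} {κ : Cardinal.{0}} (hκ : ℵ₀ ≤ κ) {A B S : Set α} (hS : S ⊆ A ∪ B)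
    (h : κ ≤ cd S) : κ ≤ cd A ∨ κ ≤ cd B := by
  by_contra hcon
  push Not at hcon
  have h1 : cd S ≤ cd A + cd B := (cd_mono hS).trans (Cardinal.mk_union_le A B)
  have h2 : cd A + cd B < κ := Cardinal.add_lt_of_lt hκ hcon.1 hcon.2
  exact absurd h (not_le.mpr (lt_of_le_of_lt h1 h2))

theorem cd_nonempty {α : Type} {κ : Cardinal.{0}} (hκ : ℵ₀ ≤ κ) {S : Set α} (h : κ ≤ cd S) :
    S.Nonempty := by
  rw [Set.nonempty_iff_ne_empty]
  rintro rfl
  have h1 : cd (∅ : Set α) = 0 := Cardinal.mk_emptyCollection α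
  rw [h1] at h
  exact absurd (hκ.trans h) (not_le.mpr Cardinal.aleph0_pos)

theorem cd_single {α : Type} {κ : Cardinal.{0}} (hκ : ℵ₀ ≤ κ) {S : Set α} {a : α}
    (hS : S ⊆ {a}) : ¬ κ ≤ cd S := by
  intro h
  have h1 : cd S ≤ 1 := (cd_mono hS).trans (Cardinal.mk_singleton a).le
  exact absurd (hκ.trans (h.trans h1)) (not_le.mpr Cardinal.one_lt_aleph0)

/-- DW -/
theorem t_DW : S_DW := by
  intro α _ w hw
  obtain ⟨f, hf⟩ := Pool.Agent.H643R2.ChainDec.dilworth (α := α) w (fun S hS => hw S (by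
    intro a ha b hb hab hle
    exact hab (hS a ha b hb hle)))
  exact ⟨f, hf⟩

/-- CHL -/
theorem t_CHL : S_CHL := by
  intro α _ κ hκ K hK hcard
  by_cases hA : ∀ c ∈ K, ∀ c' ∈ K, cd {e | e ∈ K ∧ c ≤ e ∧ e ≤ c'} < κ
  · obtain ⟨c, hc⟩ := cd_nonempty hκ hcard
    have hcov : K ⊆ {e | e ∈ K ∧ e ≤ c} ∪ {e | e ∈ K ∧ c ≤ e} := by
      intro e he
      rcases hK.total he hc with h | h
      · exact Or.inl ⟨he, h⟩
      · exact Or.inr ⟨he, h⟩
    rcases cd_cover hκ hcov hcard with h | h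
    · refine ⟨{e | e ∈ K ∧ e ≤ c}, fun e he => he.1, Or.inl ⟨⟨c, hc, le_rfl⟩,
        hK.mono fun e he => he.1, ?_⟩⟩
      intro d hd
      have hcov2 : {e | e ∈ K ∧ e ≤ c} ⊆ {y | y ∈ {e | e ∈ K ∧ e ≤ c} ∧ y ≤ d} ∪
          {e | e ∈ K ∧ d ≤ e ∧ e ≤ c} := by
        intro e he
        rcases hK.total he.1 hd.1 with h1 | h1
        · exact Or.inl ⟨he, h1⟩
        · exact Or.inr ⟨he.1, h1, he.2⟩
      rcases cd_cover hκ hcov2 h with h1 | h1
      · exact h1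
      · exact absurd h1 (not_le.mpr (hA d hd.1 c hc))
    · refine ⟨{e | e ∈ K ∧ c ≤ e}, fun e he => he.1, Or.inr ⟨⟨c, hc, le_rfl⟩,
        hK.mono fun e he => he.1, ?_⟩⟩
      intro d hd
      have hcov2 : {e | e ∈ K ∧ c ≤ e} ⊆ {y | y ∈ {e | e ∈ K ∧ c ≤ e} ∧ d ≤ y} ∪
          {e | e ∈ K ∧ c ≤ e ∧ e ≤ d} := by
        intro e he
        rcases hK.total hd.1 he.1 with h1 | h1
        · exact Or.inl ⟨he, h1⟩
        · exact Or.inr ⟨he.1, he.2, h1⟩
      rcases cd_cover hκ hcov2 h with h1 | h1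
      · exact h1
      · exact absurd h1 (not_le.mpr (hA c hc d hd.1))
  · push Not at hA
    obtain ⟨c, hc, c', hc', hbig⟩ := hA
    set I : Set α := {e | e ∈ K ∧ c ≤ e ∧ e ≤ c' ∧ cd {x | x ∈ K ∧ c ≤ x ∧ x ≤ e} < κ} with hI
    set J : Set α := {e | e ∈ K ∧ c ≤ e ∧ e ≤ c' ∧ ¬ cd {x | x ∈ K ∧ c ≤ x ∧ x ≤ e} < κ} with hJ
    have hcc : c ≤ c' := by
      obtain ⟨e, he⟩ := cd_nonempty hκ hbig
      exact he.2.1.trans he.2.2
    by_cases hIc : κ ≤ cd I
    · refine ⟨I, fun e he => he.1, Or.inr ⟨cd_nonempty hκ hIc, hK.mono fun e he => he.1, ?_⟩⟩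
      intro d hd
      have hcov2 : I ⊆ {y | y ∈ I ∧ d ≤ y} ∪ {x | x ∈ K ∧ c ≤ x ∧ x ≤ d} := by
        intro e he
        rcases hK.total hd.1 he.1 with h1 | h1
        · exact Or.inl ⟨he, h1⟩
        · exact Or.inr ⟨he.1, he.2.1, h1⟩
      rcases cd_cover hκ hcov2 hIc with h1 | h1
      · exact h1
      · exact absurd h1 (not_le.mpr hd.2.2.2)
    · refine ⟨J, fun e he => he.1, Or.inl ⟨⟨c', hc', hcc, le_rfl, not_lt.mpr hbig⟩,
        hK.mono fun e he => he.1, ?_⟩⟩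
      intro d hd
      have hcov2 : {x | x ∈ K ∧ c ≤ x ∧ x ≤ d} ⊆ {y | y ∈ J ∧ y ≤ d} ∪ I := by
        intro e he
        by_cases h1 : cd {x | x ∈ K ∧ c ≤ x ∧ x ≤ e} < κ
        · exact Or.inr ⟨he.1, he.2.1, he.2.2.trans hd.2.2.1, h1⟩
        · exact Or.inl ⟨⟨he.1, he.2.1, he.2.2.trans hd.2.2.1, h1⟩, he.2.2⟩
      rcases cd_cover hκ hcov2 (not_lt.mp hd.2.2.2) with h1 | h1
      · exact h1
      · exact absurd h1 hIc

/-- one of finitely many colour classes is large -/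
theorem cd_colour {α : Type} {κ : Cardinal.{0}} (hκ : ℵ₀ ≤ κ) {w : ℕ} (col : α → Fin w)
    {A : Set α} (h : κ ≤ cd A) : ∃ i, κ ≤ cd {y | y ∈ A ∧ col y = i} := by
  classical
  by_contra hcon
  push Not at hcon
  have key : ∀ s : Finset (Fin w), ¬ κ ≤ cd {y | y ∈ A ∧ col y ∈ s} := by
    intro s
    induction s using Finset.induction_on with
    | empty =>
      intro h1
      obtain ⟨y, hy⟩ := cd_nonempty hκ h1
      exact absurd hy.2 (Finset.notMem_empty _)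
    | insert i s hi ih =>
      intro h1
      have hcov : {y | y ∈ A ∧ col y ∈ insert i s} ⊆ {y | y ∈ A ∧ col y = i} ∪
          {y | y ∈ A ∧ col y ∈ s} := by
        intro y hy
        rcases Finset.mem_insert.mp hy.2 with h2 | h2
        · exact Or.inl ⟨hy.1, h2⟩
        · exact Or.inr ⟨hy.1, h2⟩
      rcases cd_cover hκ hcov h1 with h2 | h2
      · exact absurd h2 (not_le.mpr (hcon i))
      · exact ih h2
  refine key Finset.univ (h.trans (cd_mono fun y hy => ⟨hy, Finset.mem_univ _⟩))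

/-- large subsets of large sets -/
theorem large_sub {α : Type} [PartialOrder α] {w : ℕ} (hw : Wd α w) {κ : Cardinal.{0}}
    (hκ : ℵ₀ ≤ κ) {A : Set α} (h : κ ≤ cd A) : ∃ D ⊆ A, KLarge κ D ∨ KLargeU κ D := by
  obtain ⟨col, hcol⟩ := t_DW α w hw
  obtain ⟨i, hi⟩ := cd_colour hκ col h
  have hch : IsChain (· ≤ ·) {y | y ∈ A ∧ col y = i} := by
    intro a ha b hb _
    exact hcol a b (ha.2.trans hb.2.symm)
  obtain ⟨D, hD, h1⟩ := t_CHL α κ hκ _ hch hi
  exact ⟨D, fun x hx => (hD hx).1, h1⟩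

/-- KINC -/
theorem t_KINC : S_KINC := by
  intro α _ w hw κ hκ S hS hU
  constructor
  · intro x hx
    by_contra hcon
    obtain ⟨D, hD, h | h⟩ := large_sub hw hκ (not_lt.mp hcon)
    · obtain ⟨d, hd, hdx⟩ := hS D (fun y hy => (hD hy).1) h x hx
      exact (hD hd).2.2 hdx
    · obtain ⟨d, hd, hdx⟩ := hU D (fun y hy => (hD hy).1) h x hx
      exact (hD hd).2.1 hdx
  · intro x hx y hy
    by_contra hcon
    obtain ⟨D, hD, h | h⟩ := large_sub hw hκ (not_lt.mp hcon)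
    · obtain ⟨d, hd, hdx⟩ := hS D (fun y hy => (hD hy).1) h x hx
      refine cd_single hκ (a := x) ?_ (h.2.2 d hd)
      rintro e ⟨he, hed⟩
      exact le_antisymm (hed.trans hdx) (hD he).2.1
    · obtain ⟨d, hd, hdy⟩ := hU D (fun y hy => (hD hy).1) h y hy
      refine cd_single hκ (a := y) ?_ (h.2.2 d hd)
      rintro e ⟨he, hed⟩
      exact le_antisymm (hD he).2.2 (hdy.trans hed)

end Pool.Agent.Y625.SPO
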